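import Pool.Agent.Helper74_RL.Stmts

/-!
# APP (helper7): the points over the complement of the centres are dense in the limit space
-/

noncomputable section

open scoped ContDiff Topology ENNReal RealInnerProductSpace BoundedContinuousFunction
set_option maxSynthPendingDepth 3
open Set Metric Filter

namespace Pool.Agent.RLim.H7

open Pool.Agent.RLim Pool.Agent.RF

/-- the direction maps `sg false`, `sg true` together cover the sphere -/
theorem exists_sg (v : E3) (hv : ‖v‖ = 1) : ∃ (i : Bool) (b c : ℝ), ∀ q : E4, q 2 = b → q 3 = c →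
    sg i q = v := by
  have h : v 0 ^ 2 + v 1 ^ 2 + v 2 ^ 2 = 1 := by rw [← norm_sq3, hv]; norm_num
  by_cases h2 : 1 + v 2 = 0
  · have h3 : v 2 = -1 := by linarith
    have h0 : v 0 = 0 := by
      rw [h3] at h; nlinarith [sq_nonneg (v 0), sq_nonneg (v 1)]
    have h1 : v 1 = 0 := by
      rw [h3] at h; nlinarith [sq_nonneg (v 0), sq_nonneg (v 1)]
    refine ⟨true, 0, 0, fun q hb hc => ?_⟩
    ext j
    fin_cases j <;> simp [sg, hb, hc, h0, h1, h3]
  · refine ⟨false, v 0 / (1 + v 2), -(v 1 / (1 + v 2)), fun q hb hc => ?_⟩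
    have e : 1 + q 2 ^ 2 + q 3 ^ 2 = 2 / (1 + v 2) := by
      rw [hb, hc]
      field_simp
      linear_combination h
    have e' : q 2 ^ 2 + q 3 ^ 2 = 2 / (1 + v 2) - 1 := by linarith
    ext j
    fin_cases j
    · simp only [sg, e]
      simp [hb]
      field_simp
    · simp only [sg, e]
      simp [hc]
      field_simp
    · simp only [sg, e, e']
      simp
      field_simp
      ring

theorem continuous_hq : Continuous hq := by
  unfold hq
  fun_prop

theorem continuousAt_hd {X : E4} (hX : X ≠ 0) : ContinuousAt hd X := by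
  have h1 : hd =ᶠ[𝓝 X] fun X => (‖X‖ ^ 2)⁻¹ • hq X := by
    filter_upwards [isOpen_ne.mem_nhds hX] with Y hY
    rw [hd_of_ne hY, hopf_eq]
  refine ContinuousAt.congr ?_ h1.symm
  have h2 : ‖X‖ ^ 2 ≠ 0 := by positivity
  have h3 : ContinuousAt (fun X : E4 => ‖X‖ ^ 2) X := by fun_prop
  exact ContinuousAt.smul (ContinuousAt.inv₀ h3 h2) continuous_hq.continuousAt

theorem w_small (D : MetricData) (ε : ℝ) (hε : 0 < ε) : ∃ N, ∀ k ≥ N, 4 * D.w k < ε := by
  obtain ⟨N, hN⟩ := exists_pow_lt_of_lt_one hε (by norm_num : (1/2 : ℝ) < 1)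
  refine ⟨N, fun k hk => ?_⟩
  have h1 := D.w_le k
  have h2 := D.s_le k
  have h3 : (1/2 : ℝ) ^ k ≤ (1/2 : ℝ) ^ N := pow_le_pow_of_le_one (by norm_num) (by norm_num) hk
  have h4 : 1 / (2:ℝ) ^ (k + 3) = (1/2) ^ k / 8 := by
    rw [pow_add, one_div, mul_inv, div_pow, one_pow]; ring
  have h5 : (0:ℝ) < (1/2) ^ k := by positivity
  rw [h4] at h2
  linarith

/-- a component over a point different from the centre is the direction -/
theorem comp_eq (D : MetricData) (y : BlI D) (k : ℕ) (h : y.1.1 ≠ D.P k) :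
    y.1.2 k = D.w k • hd (y.1.1 - D.P k) := by
  have h1 := (y.2 k).2
  have h0 : y.1.1 - D.P k ≠ 0 := sub_ne_zero.2 h
  have h2 : ‖y.1.1 - D.P k‖ ^ 2 ≠ 0 := by positivity
  rw [hd_of_ne h0, hopf_eq, smul_comm, ← h1, smul_smul, inv_mul_cancel₀ h2, one_smul]

theorem app : AppStmt := by
  intro D y ε hε
  by_cases hy : ∀ k, y.1.1 ≠ D.P k
  · exact ⟨y, by simpa using hε, hy⟩
  push Not at hy
  obtain ⟨m, hm⟩ := hy
  have hwm := D.w_pos m
  have hsm : 0 < D.s m := by have := D.w_le m; linarith
  -- the direction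
  set v : E3 := (D.w m)⁻¹ • y.1.2 m with hv
  have hv1 : ‖v‖ = 1 := by
    rw [hv, norm_smul, (y.2 m).1, norm_inv, Real.norm_of_nonneg hwm.le]
    exact inv_mul_cancel₀ hwm.ne'
  have hv2 : y.1.2 m = D.w m • v := by
    rw [hv, smul_smul, mul_inv_cancel₀ hwm.ne', one_smul]
  obtain ⟨i, b, c, hsg⟩ := exists_sg v hv1
  -- the curve
  let q : ℝ → E4 := fun t => WithLp.toLp 2 ![t, 0, b, c]
  have hq0 : ∀ t, q t 0 = t := fun t => rfl
  have hq1 : ∀ t, q t 1 = 0 := fun t => rfl
  have hq2 : ∀ t, q t 2 = b := fun t => rfl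
  have hq3 : ∀ t, q t 3 = c := fun t => rfl
  let X : ℝ → E4 := fun t => cm D m i (q t)
  have hXc : Continuous X := by
    have : Continuous fun t => Phi0 i (q t) := by
      unfold Phi0
      cases i <;> simp <;> fun_prop
    change Continuous fun t => D.P m + D.w m • Phi0 i (q t)
    fun_prop
  have hX0 : X 0 = D.P m := by
    have : Phi0 i (q 0) = 0 := Phi0_eq_zero.2 ⟨hq0 0, hq1 0⟩
    change D.P m + D.w m • Phi0 i (q 0) = D.P m
    rw [this, smul_zero, add_zero]
  obtain ⟨N, hN⟩ := w_small D ε hε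
  have hne : ∀ k, k ≠ m → D.P m ≠ D.P k := by
    intro k hk h
    have h1 := D.disj m k hk.symm
    rw [h, dist_self] at h1
    have := D.w_le k
    have := D.w_pos k
    linarith
  have e1 : ∀ᶠ t in 𝓝[>] (0:ℝ), dist (X t) (D.P m) < min (ε / 2) (D.s m) := by
    have h1 : Tendsto X (𝓝[>] 0) (𝓝 (D.P m)) := by
      rw [← hX0]; exact hXc.continuousAt.mono_left nhdsWithin_le_nhds
    exact h1 (ball_mem_nhds _ (lt_min (by linarith) hsm))
  have e2 : ∀ᶠ t in 𝓝[>] (0:ℝ), ∀ k ∈ Finset.range N, k ≠ m →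
      dist (D.w k • hd (X t - D.P k)) (D.w k • hd (D.P m - D.P k)) < ε / 2 := by
    rw [Filter.eventually_all_finset]
    intro k _
    by_cases hk : k = m
    · exact Eventually.of_forall fun t h => absurd hk h
    have h1 : Tendsto (fun t => D.w k • hd (X t - D.P k)) (𝓝[>] 0)
        (𝓝 (D.w k • hd (D.P m - D.P k))) := by
      have h2 : ContinuousAt (fun t => D.w k • hd (X t - D.P k)) 0 := by
        have h3 : ContinuousAt (fun t => X t - D.P k) 0 := by fun_prop
        have h4 : ContinuousAt hd (X 0 - D.P k) := by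
          refine continuousAt_hd (sub_ne_zero.2 ?_)
          rw [hX0]
          exact hne k hk
        have h5 : ContinuousAt (fun t => hd (X t - D.P k)) 0 :=
          ContinuousAt.comp (g := hd) (f := fun t => X t - D.P k) h4 h3
        exact h5.const_smul (D.w k)
      have h3 := h2.tendsto
      simp only [hX0] at h3
      exact h3.mono_left nhdsWithin_le_nhds
    filter_upwards [h1 (ball_mem_nhds _ (by linarith : (0:ℝ) < ε / 2))] with t ht _
    exact ht
  obtain ⟨t, ⟨ht1, ht2⟩, ht0⟩ := ((e1.and e2).and self_mem_nhdsWithin).exists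
  have ht0' : (0:ℝ) < t := ht0
  have hPhi : Phi0 i (q t) ≠ 0 := by
    intro h
    have := (Phi0_eq_zero.1 h).1
    rw [hq0] at this
    exact ht0'.ne' this
  have hXm : X t - D.P m = D.w m • Phi0 i (q t) := by
    change D.P m + D.w m • Phi0 i (q t) - D.P m = _
    simp
  have hXne : ∀ k, X t ≠ D.P k := by
    intro k h
    by_cases hk : k = m
    · subst hk
      rw [h, sub_self] at hXm
      exact smul_ne_zero hwm.ne' hPhi hXm.symm
    · have h1 := D.disj m k (Ne.symm hk)
      have h2 : dist (X t) (D.P m) < D.s m := ht1.trans_le (min_le_right _ _)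
      rw [h, dist_comm] at h2
      have := D.w_le k
      have := D.w_pos k
      linarith
  refine ⟨psiI D (X t), ?_, hXne⟩
  have key : dist y (psiI D (X t)) ≤ ε / 2 := by
    rw [Subtype.dist_eq, Prod.dist_eq]
    refine max_le ?_ ?_
    · rw [hm, dist_comm]
      exact (ht1.trans_le (min_le_left _ _)).le
    · refine (BoundedContinuousFunction.dist_le (by linarith)).2 fun k => ?_
      change dist (y.1.2 k) (D.w k • hd (X t - D.P k)) ≤ ε / 2
      by_cases hk : k = m
      · subst hk
        have h1 : hd (X t - D.P k) = v := by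
          rw [hXm, hd_of_ne (smul_ne_zero hwm.ne' hPhi), hopf_smul hwm.ne' hPhi, hopf_Phi0 hPhi]
          exact hsg _ (hq2 t) (hq3 t)
        rw [h1, hv2, dist_self]
        linarith
      · by_cases hkN : k < N
        · rw [comp_eq D y k (by rw [hm]; exact hne k hk), hm, dist_comm]
          exact (ht2 k (Finset.mem_range.2 hkN) hk).le
        · have h1 := hN k (not_lt.1 hkN)
          have h2 : ‖y.1.2 k‖ = D.w k := (y.2 k).1
          have h3 : ‖D.w k • hd (X t - D.P k)‖ = D.w k := norm_w_smul D (norm_hd _) k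
          have h4 := dist_le_norm_add_norm (y.1.2 k) (D.w k • hd (X t - D.P k))
          rw [h2, h3] at h4
          linarith
  linarith

end Pool.Agent.RLim.H7
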